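import Pool.Agent.Lib_helper58.ND.Notions

/-! # Flat distances on surfaces (MP_45e720_ag): definitions for the statement -/

set_option autoImplicit false

open Filter Topology Metric Set
open scoped Manifold ContDiff

namespace Pool.Agent.NullCurves

open MinBrody (IsGerm)

section

variable (E : Type) {X : Type} [NormedAddCommGroup E] [NormedSpace ℂ E] [TopologicalSpace X]
  [ChartedSpace E X]

/-- `ρ` is a flat distance on `X`: near every point of `X` it is the pull-back of the distance of a
complex Banach space `V` by a holomorphic map `F` to `V`, `ρ u u' = ‖F u - F u'‖`. (Only the values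
of `ρ` near the diagonal matter.) Examples: the distance in a complex torus pulled back by a
holomorphic map from `X` to the torus; `‖∫ w‖`, where `w` is a closed holomorphic one-form with
values in a flat unitary bundle of Hilbert spaces and the integral is taken along a short path from
`u` to `u'`; the supremum of `|f (γ u) - f (γ u')|` over the deck transformations `γ` of a covering
space of `X` which has a bounded holomorphic function `f`. -/
def IsFlatDist (ρ : X → X → ℝ) : Prop :=
  ∀ x : X, ∃ (V : Type) (_ : NormedAddCommGroup V) (_ : NormedSpace ℂ V) (_ : CompleteSpace V)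
    (F : X → V), (∀ᶠ y in 𝓝 x, MDifferentiableAt 𝓘(ℂ, E) 𝓘(ℂ, V) F y) ∧
      ∀ᶠ p : X × X in 𝓝 (x, x), ρ p.1 p.2 = ‖F p.1 - F p.2‖

/-- The flat distance `ρ` is not locally zero. -/
def IsNontrivial (ρ : X → X → ℝ) : Prop :=
  ∃ x : X, ¬ ∀ᶠ y in 𝓝 x, ρ x y = 0

variable [IsManifold 𝓘(ℂ, E) ω X]

/-- The germ `c` is tame: it lies in the zero set of a nonzero plane form of positive weight (if `X`
is a surface: a nonzero pluricanonical form), or some nontrivial flat distance vanishes along it. -/
def IsTameGerm (c : ℂ → X) : Prop :=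
  (∃ (k : ℕ) (τ : BrodyRigid.TangentPairs E X → ℂ), 0 < k ∧ BrodyRigid.IsPlaneForm E X k τ ∧
    (∃ (x : X) (u v : E), τ (BrodyRigid.pair x u v) ≠ 0) ∧
    ∀ᶠ z in 𝓝 (0 : ℂ), ∀ u v : E, τ (BrodyRigid.pair (c z) u v) = 0) ∨
  ∃ ρ : X → X → ℝ, IsFlatDist E ρ ∧ IsNontrivial ρ ∧ ∀ᶠ z in 𝓝 (0 : ℂ), ρ (c 0) (c z) = 0

variable (X)

/-- On some finite unramified covering `X'` of `X` (for instance `X` itself) all null germs with
nonzero derivative are tame. (A holomorphic map `π : X' → X` with injective derivatives between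
compact connected manifolds of the same dimension is a finite unramified covering.) -/
def NullGermsTame : Prop :=
  ∃ (X' : Type) (_ : TopologicalSpace X') (_ : CompactSpace X') (_ : T2Space X')
    (_ : ConnectedSpace X') (_ : ChartedSpace E X') (_ : IsManifold 𝓘(ℂ, E) ω X') (π : X' → X),
    MDifferentiable 𝓘(ℂ, E) 𝓘(ℂ, E) π ∧
      (∀ (x' : X') (v : E), (SS.dirDeriv π x' v : E) = 0 → v = 0) ∧
      ∀ c : ℂ → X', IsGerm E c → BrodyRigid.velocity (E := E) c 0 ≠ ⟨c 0, (0 : E)⟩ →
        IsNullGerm E c → IsTameGerm E c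

omit [IsManifold 𝓘(ℂ, E) ω X] in
/-- `X` has a nontrivial flat distance. -/
def HasFlatDist : Prop :=
  ∃ ρ : X → X → ℝ, IsFlatDist E ρ ∧ IsNontrivial ρ

/-- Some covering space `Y` of `X` (finite or infinite, for instance the universal covering) has a
nonconstant holomorphic function `f` with bounded derivative: for every compact set `K` of tangent
vectors of `X` the derivatives of `f` in the directions `v` with `dπ (v) ∈ K` are bounded. (`π` is a
covering map, holomorphic with injective derivatives; if `X` is compact, then the condition says that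
`|df|` is bounded in the metric of `Y` which is lifted from some hermitian metric of `X`.) -/
def HasBoundedDerivative : Prop :=
  ∃ (Y : Type) (_ : TopologicalSpace Y) (_ : ConnectedSpace Y) (_ : ChartedSpace E Y)
    (_ : IsManifold 𝓘(ℂ, E) ω Y) (π : Y → X) (f : Y → ℂ), IsCoveringMap π ∧
    MDifferentiable 𝓘(ℂ, E) 𝓘(ℂ, E) π ∧
    (∀ (y : Y) (v : E), (SS.dirDeriv π y v : E) = 0 → v = 0) ∧
    MDifferentiable 𝓘(ℂ, E) 𝓘(ℂ, ℂ) f ∧ (∃ y y', f y ≠ f y') ∧
    ∀ K : Set (TangentBundle 𝓘(ℂ, E) X), IsCompact K → ∃ C : ℝ, ∀ (y : Y) (v : E),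
      (⟨π y, (SS.dirDeriv π y v : E)⟩ : TangentBundle 𝓘(ℂ, E) X) ∈ K →
        ‖(SS.dirDeriv f y v : ℂ)‖ ≤ C

/-- Some finite unramified covering `X'` of `X` (for instance `X` itself) has a nontrivial flat
distance. -/
def VirtuallyFlat : Prop :=
  ∃ (X' : Type) (_ : TopologicalSpace X') (_ : CompactSpace X') (_ : T2Space X')
    (_ : ConnectedSpace X') (_ : ChartedSpace E X') (_ : IsManifold 𝓘(ℂ, E) ω X') (π : X' → X),
    MDifferentiable 𝓘(ℂ, E) 𝓘(ℂ, E) π ∧
      (∀ (x' : X') (v : E), (SS.dirDeriv π x' v : E) = 0 → v = 0) ∧ HasFlatDist E X'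

end

end Pool.Agent.NullCurves
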