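import Pool.Agent.Lib_helper82.KZ.P.MAIN
import Pool.Agent.Lib_helper82.KZ.P.MF1
import Pool.Agent.Lib_helper82.KZ.P.MF3
import Pool.Agent.Lib_helper82.KZ.P.MF4
import Pool.Agent.Lib_helper82.KZ.P.MF5
import Pool.Agent.Lib_helper82.KZ.P.CV3
import Pool.Agent.Lib_helper82.KZ.P.CV4

/-! # Flat distances on surfaces (MP_45e720_ag): assembly -/

set_option autoImplicit false
set_option linter.unusedVariables false
set_option linter.unusedSectionVars false

open Filter Topology Metric Set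
open scoped Manifold ContDiff

namespace Pool.Agent.KZ

open Pool.Agent.BR Pool.Agent.MBS Pool.Agent.SL Pool.Agent.IS
open Pool.Agent.NullCurves
open MinBrody (IsGerm chartJet)

section

variable {E X : Type} [NormedAddCommGroup E] [NormedSpace ℂ E] [FiniteDimensional ℂ E]

/-- Brody curves along which a flat distance vanishes -/
theorem flat_metric [MetricSpace X] [CompactSpace X] [ConnectedSpace X]
    [ChartedSpace E X] [IsManifold 𝓘(ℂ, E) ω X] (h2 : Module.finrank ℂ E = 2)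
    (hX : BrodyRigid.PlaneAmple E X) {h : ℂ → X} (hh : BrodyRigid.IsBrodyCurve (E := E) h)
    (hne : ∃ z z', h z ≠ h z') {ρ : X → X → ℝ} (hρ : IsFlatDist E ρ) (hnt : IsNontrivial ρ)
    (hN : NA ρ h) : StrongLang.InTorusCurve E h := by
  obtain ⟨A, hA⟩ := exists_cha (E := E) (X := X)
  obtain ⟨L, k, hk, ⟨F⟩⟩ := exists_frm A hA (BrodyRigid.planeAmple_iff.1 hX)
  let e : Module.Basis (Fin 2) ℂ E := Module.finBasisOfFinrankEq ℂ E h2
  obtain ⟨n, a, ha⟩ := exists_af e F
  obtain ⟨ι, hιP, hιa⟩ := vs_map (af_vs ha)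
  have hι : PImm A n ι := af_imm ha hιa
  have hhA : ∀ z, A.HolAt h z := (holAt_iff A hA h).1 hh.1
  obtain ⟨C, hC⟩ := brody_bound A hA h ((BrodyRigid.isBrodyCurve_iff h).1 hh)
  have hu : ∀ ε > 0, ∃ δ > 0, ∀ z z' : ℂ, ‖z - z'‖ < δ → dist (h z) (h z') < ε := by
    intro ε hε
    obtain ⟨δ, hδ, hd⟩ := equicont A C ε hε
    exact ⟨δ, hδ, hd h hhA hC⟩
  have hR : Rel3 (fun z => ι (h z)) :=
    rel3_flat (fd_of_flat hA hρ) e hnt hhA hN hne hC hk ha hιa
  obtain ⟨g, hg, h3, h4, h5⟩ := lemT hι hhA hu hne hR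
  exact ⟨g, (holAt_iff A hA g).2 hg, h3, h4, h5⟩

theorem flat_curve [t : TopologicalSpace X] [CompactSpace X] [T2Space X]
    [ConnectedSpace X] [ChartedSpace E X] [IsManifold 𝓘(ℂ, E) ω X]
    (h2 : Module.finrank ℂ E = 2) (hX : BrodyRigid.PlaneAmple E X) {h : ℂ → X}
    (hh : BrodyRigid.IsBrodyCurve (E := E) h) (hne : ∃ z z', h z ≠ h z')
    {ρ : X → X → ℝ} (hρ : IsFlatDist E ρ) (hnt : IsNontrivial ρ) {z₀ : ℂ}
    (hz : ∀ᶠ z in 𝓝 z₀, ρ (h z₀) (h z) = 0) : StrongLang.InTorusCurve E h := by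
  have hN : NA ρ h := flat_ident hρ hh.1 hz
  obtain ⟨m, hm, -⟩ := exists_metric (E := E) (X := X)
  subst hm
  exact flat_metric h2 hX hh hne hρ hnt hN

/-- Brody curves with a tame germ -/
theorem tame_curve [TopologicalSpace X] [CompactSpace X] [T2Space X]
    [ConnectedSpace X] [ChartedSpace E X] [IsManifold 𝓘(ℂ, E) ω X]
    (h2 : Module.finrank ℂ E = 2) (hX : BrodyRigid.PlaneAmple E X)
    {h : ℂ → X} (hh : BrodyRigid.IsBrodyCurve (E := E) h)
    (hne : ∃ z z', h z ≠ h z') (z₀ : ℂ) (ha : IsTameGerm E (fun w => h (z₀ + w))) :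
    StrongLang.InTorusCurve E h := by
  rcases ha with h1 | ⟨ρ, hρ, hnt, hz⟩
  · exact ND.algebraic_curve h2 hX hh hne z₀ (Or.inl h1)
  · refine flat_curve h2 hX hh hne hρ hnt (z₀ := z₀) ?_
    have ht : Tendsto (fun z : ℂ => z - z₀) (𝓝 z₀) (𝓝 0) := by
      have : ContinuousAt (fun z : ℂ => z - z₀) z₀ := by fun_prop
      have h := this.tendsto
      simpa using h
    filter_upwards [ht.eventually hz] with z h1
    simpa only [add_zero, add_sub_cancel] using h1

/-- all null germs tame -/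
theorem hyp_of_tame [TopologicalSpace X] [CompactSpace X] [T2Space X]
    [ConnectedSpace X] [ChartedSpace E X] [IsManifold 𝓘(ℂ, E) ω X]
    (h2 : Module.finrank ℂ E = 2) (hX : BrodyRigid.PlaneAmple E X)
    (hN : ∀ c : ℂ → X, IsGerm E c → BrodyRigid.velocity (E := E) c 0 ≠ ⟨c 0, (0 : E)⟩ →
        IsNullGerm E c → IsTameGerm E c)
    (hT : BrodyRigid.NoEllipticMaps E X) : SS.BrodyHyperbolic E X := by
  obtain ⟨𝒢, g1, -, h3⟩ := SL.main_thm hX
  have h4 := (h3 (by
    intro h hh _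
    by_contra hno
    push Not at hno
    rcases ND.brody_null hX hh with h5 | h5
    · obtain ⟨z, z', hz⟩ := hno
      exact hz (hT h hh.1 h5 z z')
    · obtain ⟨z₀, hz₀⟩ := ND.exists_immersed hh.1 hno
      obtain ⟨g, h11, h12, ⟨z, z', h13⟩, -⟩ := tame_curve h2 hX hh hno z₀
        (hN _ (ND.isGerm_shift hh.1 z₀) (by
          rw [ND.velocity_shift' hh.1 z₀, add_zero]
          exact hz₀) (h5 z₀))
      exact h13 (hT g h11 h12 z z'))).2.2
  refine (h4.out 0 1).1 ?_
  rw [eq_empty_iff_forall_notMem]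
  intro g hg
  have h6 : ∃ z z', g z ≠ g z' := by
    by_contra hno
    push Not at hno
    have h7 := g1 g hg
    refine h7.2.2 0 ?_
    have : g = fun _ => g 0 := funext fun z => hno z 0
    rw [this]
    simp [BrodyRigid.velocity, tangentMap]
    rfl
  obtain ⟨z, z', hz⟩ := h6
  exact hz (hT g (g1 g hg).1 (g1 g hg).2.1 z z')

/-- the criterion -/
theorem tame_main [TopologicalSpace X] [CompactSpace X] [T2Space X]
    [ConnectedSpace X] [ChartedSpace E X] [IsManifold 𝓘(ℂ, E) ω X]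
    (hX : BrodyRigid.CanonicalAmple E X) (hN : NullGermsTame E X) :
    List.TFAE [BrodyRigid.NoEllipticMaps E X, SS.NoTorusMaps E X, SS.BrodyHyperbolic E X,
      ∀ x : X, StrongLang.HyperbolicAt E x] := by
  have h2 : Module.finrank ℂ E = 2 := hX.1
  have hP : BrodyRigid.PlaneAmple E X := BrodyRigid.planeAmple_of_canonicalAmple hX
  obtain ⟨𝒢, g1, -, h3⟩ := SL.main_thm hP
  have key : SS.BrodyHyperbolic E X → (SS.NoTorusMaps E X ∧ ∀ x : X, StrongLang.HyperbolicAt E x) := by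
    intro hb
    have h4 := (h3 (fun h hh _ => hb h hh.1)).2.2
    exact ⟨(h4.out 1 2).1 hb, (h4.out 1 3).1 hb⟩
  tfae_have 3 → 4 := fun h => (key h).2
  tfae_have 4 → 3 := IS.brody_of_hyp'
  tfae_have 3 → 2 := fun h => (key h).1
  tfae_have 2 → 1 := IS.brody_torus
  tfae_have 1 → 3 := by
    intro hT
    obtain ⟨X', i1, i2, i3, i4, i5, i6, π, h5, h6, h7⟩ := hN
    exact IS.etale_entire h5 h6 (hyp_of_tame h2 (IS.etale_planeAmple h5 h6 hP) h7
      (IS.etale_elliptic h5 h6 hT))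
  tfae_finish

/-- surfaces with a flat distance -/
theorem flat_tame [TopologicalSpace X] [CompactSpace X] [T2Space X]
    [ConnectedSpace X] [ChartedSpace E X] [IsManifold 𝓘(ℂ, E) ω X]
    (hI : VirtuallyFlat E X) : NullGermsTame E X := by
  obtain ⟨X', i1, i2, i3, i4, i5, i6, π, h5, h6, ρ, hρ, hnt⟩ := hI
  exact ⟨X', i1, i2, i3, i4, i5, i6, π, h5, h6, fun c hc hv hn =>
    Or.inr ⟨ρ, hρ, hnt, flat_null hρ hc hn⟩⟩

/-- surfaces with maps to tori or coprime symmetric differentials -/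
theorem irregular_tame [TopologicalSpace X] [CompactSpace X] [T2Space X]
    [ConnectedSpace X] [ChartedSpace E X] [IsManifold 𝓘(ℂ, E) ω X]
    (h2 : Module.finrank ℂ E = 2) (hI : StrongLang.VirtuallyIrregular E X) :
    NullGermsTame E X := by
  obtain ⟨X', i1, i2, i3, i4, i5, i6, π, h5, h6, h7⟩ := hI
  refine ⟨X', i1, i2, i3, i4, i5, i6, π, h5, h6, fun c hc hv hn => ?_⟩
  rcases h7 with ⟨W, j1, j2, j3, Γ, j4, φ, hφ, hφne⟩ | h7
  · obtain ⟨ρ, h8, h9, -⟩ := torus_flat hφ hφne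
    exact Or.inr ⟨ρ, h8, h9, flat_null h8 hc hn⟩
  · exact Or.inl (ND.coprime_null h2 h7 hc hv fun m hm σ hσ => ND.symDiff_null hc hn hm hσ)

/-- surfaces with covering spaces with functions with bounded derivative have flat distances -/
theorem bounded_flat [TopologicalSpace X] [CompactSpace X] [T2Space X]
    [ConnectedSpace X] [ChartedSpace E X] [IsManifold 𝓘(ℂ, E) ω X]
    (hI : HasBoundedDerivative E X) : VirtuallyFlat E X := by
  refine ⟨X, inferInstance, inferInstance, inferInstance, inferInstance, inferInstance,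
    inferInstance, id, mdifferentiable_id, ?_,
    cover_flat (lip_of_bdd hI)⟩
  intro x v hv
  have h1 : (SS.dirDeriv (E := E) (F := E) (id : X → X) x v : E) = v := by
    unfold SS.dirDeriv
    rw [mfderiv_id]
    rfl
  rw [h1] at hv
  exact hv

/-- Brody curves are contained in rational or elliptic curves, or Zariski dense and null, and not
tame -/
theorem brody_dichotomy [TopologicalSpace X] [CompactSpace X] [T2Space X]
    [ConnectedSpace X] [ChartedSpace E X] [IsManifold 𝓘(ℂ, E) ω X]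
    (hX : BrodyRigid.CanonicalAmple E X) {h : ℂ → X} (hh : BrodyRigid.IsBrodyCurve (E := E) h)
    (hne : ∃ z z', h z ≠ h z') :
    StrongLang.InTorusCurve E h ∨
      (StrongLang.ZariskiDense E h ∧ ∀ z : ℂ, IsNullGerm E (fun w => h (z + w)) ∧
        ¬ IsTameGerm E (fun w => h (z + w))) := by
  by_cases h1 : StrongLang.InTorusCurve E h
  · exact Or.inl h1
  · rcases ND.brody_dichotomy hX hh hne with h2 | ⟨h2, h3⟩
    · exact Or.inl h2
    · exact Or.inr ⟨h2, fun z => ⟨h3 z, fun h4 => h1 (tame_curve hX.1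
        (BrodyRigid.planeAmple_of_canonicalAmple hX) hh hne z h4)⟩⟩

end

end Pool.Agent.KZ
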