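import Pool.Agent.Lib_helper80.IS.Main
import Pool.Agent.Lib_helper58.ND.Main
import Pool.Agent.Lib_helper82.KZ.Notions

/-! # Flat distances on surfaces (MP_45e720_ag): definitions used in the proof

`A : Cha E X` is a finite atlas with cores `A.W i` (see Lib_helper82/BR/Defs), `A.loc i h` is the
expression of the curve `h` in the chart `i`, `A.HolAt h z`: `h` is holomorphic at `z`. -/

set_option autoImplicit false

open Filter Topology Metric Set

namespace Pool.Agent.NullCurves

open scoped Manifold ContDiff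

section

variable (E X : Type) [NormedAddCommGroup E] [NormedSpace ℂ E] [TopologicalSpace X]
  [ChartedSpace E X]

/-- (internal) Some covering space `Y` of `X` (for instance the universal covering) has a nonconstant
holomorphic function `f` with bounded derivative, in a metric which is lifted from `X`. We state this
as follows: every point of `X` has a neighbourhood `U` such that the oscillation of `f` on the
connected subsets of the inverse image of `U` is bounded by some constant `C`. (The covering map `π`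
is holomorphic with injective derivatives; it may have infinite fibres.) -/
def HasLipschitzFunction : Prop :=
  ∃ (Y : Type) (_ : TopologicalSpace Y) (_ : ConnectedSpace Y) (_ : ChartedSpace E Y)
    (_ : IsManifold 𝓘(ℂ, E) ω Y) (π : Y → X) (f : Y → ℂ), IsCoveringMap π ∧
    MDifferentiable 𝓘(ℂ, E) 𝓘(ℂ, E) π ∧
    (∀ (y : Y) (v : E), (SS.dirDeriv π y v : E) = 0 → v = 0) ∧
    MDifferentiable 𝓘(ℂ, E) 𝓘(ℂ, ℂ) f ∧ (∃ y y', f y ≠ f y') ∧
    ∀ x : X, ∃ U ∈ 𝓝 x, ∃ C : ℝ, ∀ T ⊆ π ⁻¹' U, IsPreconnected T →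
      ∀ y ∈ T, ∀ y' ∈ T, ‖f y - f y'‖ ≤ C

end

end Pool.Agent.NullCurves

namespace Pool.Agent.KZ

open Pool.Agent.BR Pool.Agent.MBS Pool.Agent.SL Pool.Agent.IS

section

variable {E X : Type} [NormedAddCommGroup E] [NormedSpace ℂ E] [MetricSpace X]

/-- on the open set `O` the function `ρ` is the pull-back of the distance of `V` by the analytic map
`F` -/
structure Mod (A : Cha E X) (ρ : X → X → ℝ) (O : Set X) {V : Type} [NormedAddCommGroup V]
    [NormedSpace ℂ V] (F : X → V) : Prop where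
  op : IsOpen O
  an : ∀ y ∈ O, ∀ i, y ∈ (A.ch i).source →
    AnalyticAt ℂ (fun ξ => F ((A.ch i).symm ξ)) (A.ch i y)
  eq : ∀ u ∈ O, ∀ u' ∈ O, ρ u u' = ‖F u - F u'‖

/-- `ρ` is a flat distance -/
def FD (A : Cha E X) (ρ : X → X → ℝ) : Prop :=
  ∀ x : X, ∃ (V : Type) (_ : NormedAddCommGroup V) (_ : NormedSpace ℂ V) (_ : CompleteSpace V)
    (F : X → V) (O : Set X), x ∈ O ∧ Mod A ρ O F

/-- the norm of the derivative at `x` in the direction `v` (in the chart `i`) -/
noncomputable def nw (A : Cha E X) (ρ : X → X → ℝ) (i : A.ι) (x : X) (v : E) : ℝ :=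
  limsup (fun t : ℝ => ρ x ((A.ch i).symm (A.ch i x + (t : ℂ) • v)) / t) (𝓝[>] 0)

/-- the points where the derivative is zero -/
def ZS (A : Cha E X) (ρ : X → X → ℝ) : Set X :=
  {x | ∀ i, x ∈ (A.ch i).source → ∀ v, nw A ρ i x v = 0}

/-- the points where the derivative is not injective (rank at most one, on surfaces) -/
def RS (A : Cha E X) (ρ : X → X → ℝ) : Set X :=
  {x | ∀ i, x ∈ (A.ch i).source → ∃ v, v ≠ 0 ∧ nw A ρ i x v = 0}

/-- the flat distance vanishes along the curve `h` -/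
def NA (ρ : X → X → ℝ) (h : ℂ → X) : Prop :=
  ∀ z, ∀ᶠ z' in 𝓝 z, ρ (h z) (h z') = 0

/-- `d` is an analytic disc (in the chart `i`) contained in the core `W i` -/
structure Dsc (A : Cha E X) (i : A.ι) (d : ℂ → E) : Prop where
  an : ∀ ζ ∈ closedBall (0 : ℂ) 1, AnalyticAt ℂ d ζ
  mem : ∀ ζ ∈ closedBall (0 : ℂ) 1, d ζ ∈ (A.ch i).target ∧ (A.ch i).symm (d ζ) ∈ A.W i

/-- `D` is covered by finitely many quarter discs of analytic discs contained in `D` -/
def DC (A : Cha E X) (D : Set X) : Prop :=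
  ∃ (J : ℕ) (ix : Fin J → A.ι) (d : Fin J → ℂ → E), (∀ j, Dsc A (ix j) (d j)) ∧
    (∀ j, ∀ ζ ∈ closedBall (0 : ℂ) 1, (A.ch (ix j)).symm (d j ζ) ∈ D) ∧
    ∀ x ∈ D, ∃ j, ∃ ζ ∈ closedBall (0 : ℂ) (1 / 4), (A.ch (ix j)).symm (d j ζ) = x

/-- `D` is a closed analytic set with empty interior: near every point it is the set of the common
zeros of a family of analytic functions, which are not all zero near this point -/
def AS (A : Cha E X) (D : Set X) : Prop :=
  ∀ x : X, ∃ (κ : Type) (S : κ → X → ℂ) (O : Set X), IsOpen O ∧ x ∈ O ∧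
    (∀ y ∈ O, (y ∈ D ↔ ∀ s, S s y = 0)) ∧
    (∀ s, ∀ y ∈ O, ∀ i, y ∈ (A.ch i).source →
      AnalyticAt ℂ (fun ξ => S s ((A.ch i).symm ξ)) (A.ch i y)) ∧
    ∃ s, ¬ ∀ᶠ y in 𝓝 x, S s y = 0

/-- the size of the velocity of `h` divided by the size of the derivative of `ρ`; if the rank is one
and `ρ` vanishes along `h`, then this is `|det (h', ξ)| / nw ξ` for all `ξ` with `nw ξ ≠ 0` -/
noncomputable def lam (A : Cha E X) (e : Module.Basis (Fin 2) ℂ E) (ρ : X → X → ℝ) (h : ℂ → X)
    (i : A.ι) (z : ℂ) : ℝ :=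
  (‖e.repr (deriv (A.loc i h) z) 0‖ + ‖e.repr (deriv (A.loc i h) z) 1‖) /
    (nw A ρ i (h z) (e 0) + nw A ρ i (h z) (e 1))

/-- the function `u` is continuous at `z` and satisfies the submean value inequality for small
circles -/
def LS (u : ℂ → ℝ) (z : ℂ) : Prop :=
  ContinuousAt u z ∧ ∀ᶠ r in 𝓝[>] (0 : ℝ), u z ≤ Real.circleAverage u z r

end

/-- `F` is a monic polynomial of degree `b` whose coefficients are analytic functions near `0` -/
def PAn (b : ℕ) (F : ℂ → Polynomial ℂ) : Prop :=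
  (∀ x, (F x).Monic ∧ (F x).natDegree = b) ∧ ∀ k, AnalyticAt ℂ (fun x => (F x).coeff k) 0

end Pool.Agent.KZ
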